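import Pool.Agent.R953.FR.P10

/-!
# MP_de6572_pr, Q1: the leaf density when `α = ∞`

The conjectured convergence `N_0(t,B)/(ℓ t) → μ(B)` fails for a fitness function which depends only
on the degree. The function is constant on blocks: on the slow block `[a k, b k)` it equals the
length `J k` of the block, on the fast block `[b k, a (k+1))` of length `K k` it equals the huge
number `H k`. With positive probability the root is the only vertex that ever leads; after each of
its bursts almost all vertices are fresh leaves, and a positive fraction of them is picked before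
the next burst. The definitions of the process, `IsTree`, `leafCount` and `alpha`, are in
`Pool.Agent.R953.FR.P9`.
-/

set_option autoImplicit false
open MeasureTheory Filter Topology
open scoped ENNReal NNReal
open Pool.Agent.R953.FR

namespace Pool.Agent.Results.MP_de6572_pr.BurstingFitness

/-- There are a fitness function `f`, everywhere positive, and a Borel set `B` such that with
`ℓ = 1`, for every weight law `μ`: `α = ∞`, the tree process exists, and for no version of the
process the leaf density `N_0(t,B)/(ℓ t)` converges almost surely to `μ(B)`. -/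
theorem result :
    ∃ (f : ℕ → ℝ≥0 → ℝ≥0) (B : Set ℝ≥0), (∀ i, Measurable (f i)) ∧ (∀ i w, 0 < f i w) ∧
      MeasurableSet B ∧
      ∀ (μ : Measure ℝ≥0) [IsProbabilityMeasure μ],
        alpha μ f 1 = ⊤ ∧
        (∃ (Ω : Type) (_ : MeasurableSpace Ω) (P : Measure Ω) (W : ℕ → Ω → ℝ≥0) (c : ℕ → Ω → ℕ),
          IsProbabilityMeasure P ∧ IsTree μ f 1 P W c) ∧
        ∀ (Ω : Type) [MeasurableSpace Ω] (P : Measure Ω) [IsProbabilityMeasure P]
          (W : ℕ → Ω → ℝ≥0) (c : ℕ → Ω → ℕ), IsTree μ f 1 P W c →
          ¬ ∀ᵐ ω ∂P, Tendsto (fun t : ℕ => (leafCount 1 W c B t ω : ℝ) / ((1 * t : ℕ) : ℝ)) atTop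
            (𝓝 (μ B).toReal) := by
  refine ⟨fF, Set.univ, fun i => measurable_const, fun i w => ?_, MeasurableSet.univ, fun μ _ => ?_⟩
  · exact Real.toNNReal_pos.mpr (f_pos i)
  · refine ⟨alpha_top μ, ?_, ?_⟩
    · obtain ⟨P, W, c, h1, h2⟩ := exists_tree μ
      exact ⟨_, _, P, W, c, h1, h2⟩
    · intro Ω _ P _ W c hT hconv
      refine not_conv hT ?_
      simpa only [one_mul, measure_univ, ENNReal.toReal_one] using hconv

end Pool.Agent.Results.MP_de6572_pr.BurstingFitness
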